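import Mathlib
import Pool.Agent.Lib.MP_c36447_co.Spectral
import Pool.Agent.Lib.MP_c36447_co.MateSpec

/-!
# Hamming graphs are not always determined by their distance spectrum

For every even `q ≥ 6` and every `d ≥ q + 1` we construct a connected graph which has the same
distance spectrum as the Hamming graph `H(d, q)` but is not isomorphic to it.

The graph is an isometric subgraph of the Cartesian product of `q - 1` cocktail party graphs
`CP(q)` (on `2 q` vertices) and `d - q` complete graphs `K_q`.  Take an isometric cycle of length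
`2 q` in the `q`-cube, blow up each of the two values of every coordinate into `q / 2` points of
`{1, …, q}`, attach a free sign to each of the first `q - 1` coordinates, and take the Cartesian
product with `H(d - q - 1, q)`.
-/

namespace Pool.Agent.Results.MP_c36447_co.EvenQ

open Pool.Agent.Lib.MP_c36447_co

/-- The distance matrix of a graph. -/
noncomputable def distMatrix {V : Type} (G : SimpleGraph V) : Matrix V V ℝ :=
  Matrix.of fun u v => (G.dist u v : ℝ)

theorem distMatrix_isHermitian {V : Type} (G : SimpleGraph V) : (distMatrix G).IsHermitian := by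
  ext u v
  simp [distMatrix, G.dist_comm]

/-- The distance spectrum of a graph: the multiset of the eigenvalues (with multiplicity) of its
distance matrix, which is a real symmetric matrix. -/
noncomputable def distSpectrum {V : Type} [Fintype V] [DecidableEq V] (G : SimpleGraph V) :
    Multiset ℝ :=
  Finset.univ.val.map (distMatrix_isHermitian G).eigenvalues

/-- A finite graph `G` is determined by its distance spectrum if every connected finite graph with
the same distance spectrum is isomorphic to `G`. -/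
def DeterminedByDistanceSpectrum {V : Type} [Fintype V] [DecidableEq V] (G : SimpleGraph V) :
    Prop :=
  ∀ (W : Type) [Fintype W] [DecidableEq W] (G' : SimpleGraph W), G'.Connected →
    distSpectrum G' = distSpectrum G → Nonempty (G' ≃g G)

/-- The Hamming graph `H(d, q)`: two words of length `d` over an alphabet with `q` letters are
adjacent when they differ in exactly one coordinate. -/
def hamming (d q : ℕ) : SimpleGraph (Fin d → Fin q) where
  Adj x y := hammingDist x y = 1
  symm := ⟨fun x y h => by rw [hammingDist_comm]; exact h⟩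
  loopless := ⟨fun x h => by rw [hammingDist_self] at h; omega⟩

section hamming

variable {d q : ℕ}

/-- coordinates of the vertices of the Hamming graph -/
def XH (w : Fin d → Fin q) (x : Fin d) : Fin q × Bool := (w x, false)

theorem delta_XH (u v : Fin d → Fin q) : delta XH u v = hammingDist u v := by
  unfold delta hammingDist
  rw [Finset.card_filter]
  refine Finset.sum_congr rfl fun x _ => ?_
  unfold XH dX
  by_cases h : u x = v x
  · simp [h]
  · simp [h]

theorem XH_injective : Function.Injective (XH (d := d) (q := q)) := by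
  intro u v h
  funext x
  have := congrFun h x
  simpa [XH] using this

theorem hamming_dist : (∀ u v, (hamming d q).Reachable u v) ∧
    ∀ u v, (hamming d q).dist u v = delta XH u v := by
  apply dist_eq_delta (hamming d q) XH
  · intro u v
    rw [delta_XH]
    exact Iff.rfl
  · exact XH_injective
  · intro u v hne
    obtain ⟨x, hx⟩ : ∃ x, u x ≠ v x := by
      by_contra hcon
      push Not at hcon
      exact hne (funext hcon)
    refine ⟨Function.update u x (v x), x, ?_, ?_, ?_⟩
    · intro y hy
      simp [XH, hy]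
    · simp [XH, dX, hx]
    · simp [XH, dX, hx]

theorem hamming_delta_cast (u v : Fin d → Fin q) :
    (delta XH u v : ℝ) = ∑ x, (if u x = v x then (0 : ℝ) else 1) := by
  unfold delta
  push_cast
  refine Finset.sum_congr rfl fun x _ => ?_
  exact dX_false (u x) (v x)

theorem hamming_spec : ∃ c : ℝ, ∀ u v : Fin d → Fin q,
    (∑ w, (delta XH u w : ℝ) * delta XH w v) + (q : ℝ) ^ (d - 1) * delta XH u v = c := by
  simp_rw [hamming_delta_cast]
  apply combine (fun (x : Fin d) (u v : Fin d → Fin q) => (if u x = v x then (0 : ℝ) else 1))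
  · intro x
    refine ⟨(q : ℝ) ^ (d - 1) * (q - 1), fun u v => ?_⟩
    rw [sum_pi_one x (fun p => (if u x = p then (0 : ℝ) else 1) * (if p = v x then 0 else 1)),
      sum_ne_ne]
    simp only [Fintype.card_fin]
    ring
  · intro x y hxy
    refine ⟨(q : ℝ) ^ (d - 1 - 1) * ((q - 1) * (q - 1)), fun u v => ?_⟩
    have : ∀ w : Fin d → Fin q, (if w y = v y then (0 : ℝ) else 1)
        = if v y = w y then (0 : ℝ) else 1 := by
      intro w
      by_cases h : w y = v y
      · rw [if_pos h, if_pos h.symm]
      · rw [if_neg h, if_neg (fun e => h e.symm)]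
    simp_rw [this]
    rw [sum_pi_two hxy (fun p => (if u x = p then (0 : ℝ) else 1))
      (fun p => if v y = p then (0 : ℝ) else 1), sum_ne, sum_ne]
    simp only [Fintype.card_fin]

theorem hamming_row (u : Fin d → Fin q) :
    ∑ v, (delta XH u v : ℝ) = d * ((q : ℝ) ^ (d - 1) * (q - 1)) := by
  simp_rw [hamming_delta_cast]
  rw [Finset.sum_comm]
  have : ∀ x : Fin d, ∑ v : Fin d → Fin q, (if u x = v x then (0 : ℝ) else 1)
      = (q : ℝ) ^ (d - 1) * (q - 1) := by
    intro x
    rw [sum_pi_one x (fun p => (if u x = p then (0 : ℝ) else 1)), sum_ne]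
    simp only [Fintype.card_fin]
  simp_rw [this, Finset.sum_const, Finset.card_univ, nsmul_eq_mul, Fintype.card_fin]

theorem hamming_adj_iff (x y : Fin d → Fin q) :
    (hamming d q).Adj x y ↔ ∃ i, x i ≠ y i ∧ ∀ j, j ≠ i → x j = y j := by
  show hammingDist x y = 1 ↔ _
  unfold hammingDist
  rw [Finset.card_eq_one]
  constructor
  · rintro ⟨i, hi⟩
    have h1 : i ∈ Finset.univ.filter (fun i => x i ≠ y i) := by rw [hi]; simp
    refine ⟨i, (Finset.mem_filter.1 h1).2, fun j hj => ?_⟩
    by_contra hne
    have h2 : j ∈ Finset.univ.filter (fun i => x i ≠ y i) :=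
      Finset.mem_filter.2 ⟨Finset.mem_univ _, hne⟩
    rw [hi, Finset.mem_singleton] at h2
    exact hj h2
  · rintro ⟨i, hi, hj⟩
    refine ⟨i, ?_⟩
    ext j
    rw [Finset.mem_filter, Finset.mem_singleton]
    constructor
    · rintro ⟨-, h⟩
      by_contra hne
      exact h (hj j hne)
    · rintro rfl
      exact ⟨Finset.mem_univ _, hi⟩

theorem triangle_coord {x y z : Fin d → Fin q} (hxy : (hamming d q).Adj x y)
    (hxz : (hamming d q).Adj x z) (hyz : (hamming d q).Adj y z) {k : Fin d}
    (hk : y k ≠ z k) : ∀ j, j ≠ k → x j = y j := by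
  rw [hamming_adj_iff] at hxy hxz hyz
  obtain ⟨i, hi, hi'⟩ := hxy
  obtain ⟨j, hj, hj'⟩ := hxz
  obtain ⟨l, hl, hl'⟩ := hyz
  have hlk : l = k := by
    by_contra hne
    exact hk (hl' k (fun h => hne h.symm))
  subst hlk
  have hij : i = j := by
    by_contra hne
    have h1 : y i ≠ z i := by
      rw [← hj' i hne]
      exact hi.symm
    have h2 : y j ≠ z j := by
      rw [← hi' j (fun h => hne h.symm)]
      exact hj
    have e1 : i = l := by
      by_contra h; exact h1 (hl' i h)
    have e2 : j = l := by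
      by_contra h; exact h2 (hl' j h)
    exact hne (e1.trans e2.symm)
  subst hij
  have hil : i = l := by
    by_contra hne
    have h1 := hi' l (fun h => hne h.symm)
    have h2 := hj' l (fun h => hne h.symm)
    exact hl (h1.symm.trans h2)
  subst hil
  exact hi'

theorem hamming_diamond {a b y z : Fin d → Fin q} (h1 : (hamming d q).Adj a y)
    (h2 : (hamming d q).Adj a z) (h3 : (hamming d q).Adj b y) (h4 : (hamming d q).Adj b z)
    (h5 : (hamming d q).Adj y z) : a = b ∨ (hamming d q).Adj a b := by
  obtain ⟨k, hk, -⟩ := (hamming_adj_iff y z).1 h5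
  have ha := triangle_coord h1 h2 h5 hk
  have hb := triangle_coord h3 h4 h5 hk
  by_cases hab : a k = b k
  · left
    funext j
    by_cases hj : j = k
    · rw [hj, hab]
    · rw [ha j hj, hb j hj]
  · right
    rw [hamming_adj_iff]
    exact ⟨k, hab, fun j hj => by rw [ha j hj, hb j hj]⟩

end hamming

section noniso

variable {m h a : ℕ}

/-- vertices of the mate that differ only in one coordinate -/
def yv (i : Fin m) (t0 : Fin h) (τ : Fin h) (σ : Bool) : VG m h a :=
  (((false, 0), Function.update (fun _ => t0) i.succ τ),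
    (Function.update (fun _ => false) i σ, fun _ => (false, t0)))

theorem XG_yv (i : Fin m) (t0 τ : Fin h) (σ : Bool) :
    XG (yv (a := a) i t0 τ σ) (Sum.inl i.succ) = ((blk (false, (0 : Fin (m + 1))) i.succ, τ), σ) := by
  rw [XG_inl]
  simp [yv]

theorem XG_yv_ne (i : Fin m) (t0 τ τ' : Fin h) (σ σ' : Bool) (x : Fin (m + 1) ⊕ Fin a)
    (hx : x ≠ Sum.inl i.succ) : XG (yv i t0 τ σ) x = XG (yv i t0 τ' σ') x := by
  rcases x with j | l
  · have hj : j ≠ i.succ := fun e => hx (by rw [e])
    rw [XG_inl, XG_inl]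
    simp only [yv, Function.update_of_ne hj]
    congr 1
    rcases Fin.eq_zero_or_eq_succ j with rfl | ⟨j', rfl⟩
    · rfl
    · have : j' ≠ i := fun e => hj (by rw [e])
      simp [this]
  · rfl

theorem delta_yv (i : Fin m) (t0 τ τ' : Fin h) (σ σ' : Bool) :
    delta XG (yv (a := a) i t0 τ σ) (yv i t0 τ' σ')
      = dX ((blk (false, (0 : Fin (m + 1))) i.succ, τ), σ)
          ((blk (false, (0 : Fin (m + 1))) i.succ, τ'), σ') := by
  unfold delta
  rw [← Finset.add_sum_erase _ _ (Finset.mem_univ (Sum.inl i.succ)), XG_yv, XG_yv]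
  have : ∑ x ∈ Finset.univ.erase (Sum.inl i.succ : Fin (m + 1) ⊕ Fin a),
      dX (XG (yv (a := a) i t0 τ σ) x) (XG (yv i t0 τ' σ') x) = 0 :=
    Finset.sum_eq_zero fun x hx => by
      rw [XG_yv_ne i t0 τ τ' σ σ' x (Finset.ne_of_mem_erase hx), dX_self]
  rw [this, add_zero]

theorem not_iso (hm : 1 ≤ m) (hh : 3 ≤ h) (d q : ℕ) :
    IsEmpty (mate m h a ≃g hamming d q) := by
  constructor
  intro φ
  let i : Fin m := ⟨0, hm⟩
  let t0 : Fin h := ⟨0, by omega⟩
  let t1 : Fin h := ⟨1, by omega⟩
  let t2 : Fin h := ⟨2, by omega⟩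
  have h01 : t0 ≠ t1 := by simp [t0, t1]
  have h02 : t0 ≠ t2 := by simp [t0, t2]
  have h12 : t1 ≠ t2 := by simp [t1, t2]
  have adj : ∀ (τ τ' : Fin h) (σ σ' : Bool), τ ≠ τ' →
      (mate m h a).Adj (yv i t0 τ σ) (yv i t0 τ' σ') := by
    intro τ τ' σ σ' hne
    show delta XG _ _ = 1
    rw [delta_yv]
    simp [dX, hne]
  have hnadj : ¬ (mate m h a).Adj (yv i t0 t0 false) (yv i t0 t0 true) := by
    show ¬ delta XG _ _ = 1
    rw [delta_yv]
    simp [dX]
  have hne : (yv i t0 t0 false : VG m h a) ≠ yv i t0 t0 true := by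
    intro e
    have := congrArg (fun w : VG m h a => (XG w (Sum.inl i.succ)).2) e
    simp only [XG_yv] at this
    exact absurd this (by decide)
  rcases hamming_diamond (φ.map_adj_iff.2 (adj t0 t1 false false h01))
    (φ.map_adj_iff.2 (adj t0 t2 false false h02))
    (φ.map_adj_iff.2 (adj t0 t1 true false h01))
    (φ.map_adj_iff.2 (adj t0 t2 true false h02))
    (φ.map_adj_iff.2 (adj t1 t2 false false h12)) with e | e
  · exact hne (φ.injective e)
  · exact hnadj (φ.map_adj_iff.1 e)

end noniso

theorem cospectral (m h a : ℕ) (hq : m + 1 = 2 * h) (hh : 3 ≤ h) :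
    distSpectrum (mate m h a) = distSpectrum (hamming (m + 2 + a) (m + 1)) := by
  have hqr : (2 * h : ℝ) = (m + 1 : ℝ) := by exact_mod_cast hq.symm
  have hθ : thetaG m h a = (((m + 1 : ℕ) : ℝ)) ^ (m + 2 + a - 1) := by
    unfold thetaG
    have e : m + 2 + a - 1 = 1 + m + a := by omega
    rw [e, pow_add, pow_add, pow_one]
    push_cast
    rw [← hqr, mul_pow]
    ring
  have h0 : (0 : ℝ) < ((m + 1 : ℕ) : ℝ) := by exact_mod_cast Nat.succ_pos m
  have : Nonempty (VG m h a) := ⟨yv ⟨0, by omega⟩ ⟨0, by omega⟩ ⟨0, by omega⟩ false⟩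
  have : Nonempty (Fin (m + 2 + a) → Fin (m + 1)) := ⟨fun _ => 0⟩
  obtain ⟨c, hc⟩ := mate_spec (m := m) (h := h) (a := a)
  obtain ⟨c', hc'⟩ := hamming_spec (d := m + 2 + a) (q := m + 1)
  have hD : ∀ u v, distMatrix (mate m h a) u v = (delta XG u v : ℝ) := by
    intro u v
    show ((mate m h a).dist u v : ℝ) = _
    rw [(mate_dist (by omega)).2]
  have hE : ∀ u v, distMatrix (hamming (m + 2 + a) (m + 1)) u v = (delta XH u v : ℝ) := by
    intro u v
    show ((hamming (m + 2 + a) (m + 1)).dist u v : ℝ) = _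
    rw [hamming_dist.2]
  have hm1 : (1 : ℝ) ≤ m := by
    have : 1 ≤ m := by omega
    exact_mod_cast this
  refine eigenvalues_eq_of_data (distMatrix (mate m h a)) (distMatrix_isHermitian _)
    (distMatrix (hamming (m + 2 + a) (m + 1))) (distMatrix_isHermitian _) ?_
    (thetaG m h a) (((m + 2 + a : ℕ) : ℝ) * ((((m + 1 : ℕ) : ℝ)) ^ (m + 2 + a - 1) *
      (((m + 1 : ℕ) : ℝ) - 1))) c c' ?_ ?_ ?_ ?_ ?_ ?_ ?_ ?_
  · have e1 : (Fintype.card (VG m h a) : ℝ)
        = (Fintype.card (Fin (m + 2 + a) → Fin (m + 1)) : ℝ) := by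
      rw [card_VG, hθ, Fintype.card_fun, Fintype.card_fin, Fintype.card_fin, hqr]
      have e : m + 2 + a = m + 2 + a - 1 + 1 := by omega
      conv_rhs => rw [e]
      push_cast
      rw [pow_succ]
      ring
    exact_mod_cast e1
  · rw [hθ]; positivity
  · have : (0 : ℝ) < ((m + 1 : ℕ) : ℝ) - 1 := by push_cast; linarith
    have h2 : (0 : ℝ) < ((m + 2 + a : ℕ) : ℝ) := by exact_mod_cast (by omega : 0 < m + 2 + a)
    positivity
  · intro u v
    simp_rw [hD]
    exact hc u v
  · intro u
    simp_rw [hD]
    rw [mate_row, card_VG, hθ, hqr]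
    push_cast
    ring
  · intro u
    rw [hD, delta_self, Nat.cast_zero]
  · intro u v
    simp_rw [hE]
    rw [hθ]
    exact hc' u v
  · intro u
    simp_rw [hE]
    rw [hamming_row]
  · intro u
    rw [hE, delta_self, Nat.cast_zero]

/-- **The Hamming graph `H(d, q)` is not determined by its distance spectrum** if `q ≥ 6` is even
and `d ≥ q + 1`. -/
theorem result (q d : ℕ) (hq : Even q) (h6 : 6 ≤ q) (hd : q + 1 ≤ d) :
    ¬ DeterminedByDistanceSpectrum (hamming d q) := by
  obtain ⟨h, hh⟩ := hq
  obtain ⟨m, rfl⟩ : ∃ m, q = m + 1 := ⟨q - 1, by omega⟩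
  obtain ⟨a, rfl⟩ : ∃ a, d = m + 2 + a := ⟨d - (m + 2), by omega⟩
  intro H
  have hconn : (mate m h a).Connected := by
    have : Nonempty (VG m h a) := ⟨yv ⟨0, by omega⟩ ⟨0, by omega⟩ ⟨0, by omega⟩ false⟩
    exact { preconnected := fun u v => (mate_dist (by omega)).1 u v }
  obtain ⟨φ⟩ := H (VG m h a) (mate m h a) hconn (cospectral m h a (by omega) (by omega))
  exact (not_iso (by omega) (by omega) _ _).false φ

end Pool.Agent.Results.MP_c36447_co.EvenQ
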